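import Pool.Agent.Helper62.Q2.RTC

/-! Row RT of the second sheet QZ (MP_818aa8): the level sets of the short Euler product along the
line, `N` growing with `T` (helper62, after helper78's row RM). -/

set_option autoImplicit false

namespace Pool.Agent.Helper57.QZ

open MeasureTheory Set Filter Topology

/-- the bounds along the line at a level `z` -/
theorem SRT.bounds (ε η e1 cu zu zl zs zg cs cg Ce M : ℝ)
    (hη0 : 0 < η) (hη1 : η < 1 / 2) (he0 : 0 < e1) (he4 : e1 ≤ 1)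
    (hε : ε ∈ Ioo (0 : ℝ) (1 / 2)) (hcs : 0 < cs) (hcg : 0 < cg) (hCe0 : 0 < Ce)
    (h3 : ST_ST)
    (hU : ∀ (y k : ℕ) (σ z T : ℝ), σ ∈ Icc (1 / 2 + ε) 1 → zu ≤ z → z ≤ y → 1 ≤ k → 0 < T →
      8 * (z ^ σ * omy y σ (z ^ σ)) ≤ k →
      2 * (1 + z ^ σ * y) ^ (2 * k) * (y : ℝ) ^ (2 * k) ≤ T →
      volume.real {t : ℝ | t ∈ Icc T (2 * T) ∧
        (1 + η / 2) * omy y σ (z ^ σ) ≤ ‖Vy y σ (lin y t)‖} ≤
        T * Real.exp (-(Ly y σ (z ^ σ)) - cu * z ^ σ))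
    (hL : ∀ (y k : ℕ) (σ z α T : ℝ), σ ∈ Icc (1 / 2 + ε) 1 → zl ≤ z → z ≤ y → 0 < T →
      400 * (y : ℝ) ^ 2 / e1 ^ 2 * Real.exp (∑ p : Pr y, ell (3 * (z ^ σ * aa σ p))) ≤ 4 ^ k →
      1000 * (1 + z ^ σ * y) ^ (2 * k) * (y : ℝ) ^ (2 * k + 4) / e1 ^ 2 ≤ T →
      (1 / 2) * Real.exp (-(Ly y σ (z ^ σ)) - z ^ σ * e1) * T ≤
        volume.real {t : ℝ | t ∈ Icc T (2 * T) ∧
          muy y σ (z ^ σ) - e1 ≤ Sa y σ α (lin y t) ∧
          16 * ∑ p : Pr y, aa σ p ^ 2 * (1 - Real.cos (lin y t p + α)) ≤ e1 ∧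
          (1 - e1) * omy y σ (z ^ σ) ≤
            ∑ p : Pr y, aa σ p * Real.log p * Real.cos (lin y t p + α)})
    (hS : ∀ (y : ℕ) (σ z : ℝ), σ ∈ Icc (1 / 2) 1 → zs ≤ z → z ≤ y →
      cs * (Real.log z + z ^ (1 - σ)) ≤ omy y σ (z ^ σ))
    (hG : ∀ (y : ℕ) (σ z : ℝ), σ ∈ Icc (1 / 2) 1 → zg ≤ z → z ≤ y →
      cg * z / Real.log z ≤ Ly y σ (z ^ σ))
    (hE : ∀ (y : ℕ) (σ z : ℝ), σ ∈ Icc (1 / 2 + ε) 1 → 2 ≤ z →
      ∑ p : Pr y, ell (3 * (z ^ σ * aa σ p)) ≤ Ce * z * Real.log z ∧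
      z ^ σ * muy y σ (z ^ σ) ≤ Ce * z * Real.log z ∧
      z ^ σ * omy y σ (z ^ σ) ≤ Ce * z * Real.log z ^ 2)
    (y k : ℕ) (σ s z T U V l a L : ℝ) (hσ : σ ∈ Icc (1 / 2 + ε) 1)
    (hzσ : z ^ σ = s) (hs1 : 1 ≤ s) (hsz : s ≤ z) (hzy : z ≤ y) (hsy : s ≤ y) (hz2 : 2 ≤ z)
    (hzu : zu ≤ z) (hzl : zl ≤ z) (hzs : zs ≤ z) (hzg : zg ≤ z) (hzM : Real.exp (M / cs) ≤ z)
    (hV : 1 ≤ V) (hl1 : 1 ≤ l) (hlz : Real.log z ≤ l) (hy1 : (1 : ℝ) ≤ y)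
    (hya : Real.log y ≤ a) (ha0 : 0 ≤ a)
    (hLV : L ≤ V) (hsL : Ly y σ s + s * e1 = L) (hTU : Real.exp U = T)
    (hp5 : 8 * (Ce + 1) * (V / cg * l ^ 3) + Real.log (400 / e1 ^ 2) + 2 * a + 1 ≤ k)
    (hp6 : Real.log (1000 / e1 ^ 2) + 2 * (k : ℝ) * (Real.log 2 + 2 * a) +
      (2 * (k : ℝ) + 4) * a ≤ U) :
    M ≤ omy y σ s ∧
    (∀ α : ℝ, (1 / 2) * Real.exp (-(Ly y σ s) - s * e1) * T ≤
      volume.real {t : ℝ | t ∈ Icc T (2 * T) ∧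
        muy y σ s - e1 ≤ Sa y σ α (lin y t) ∧
        16 * ∑ p : Pr y, aa σ p ^ 2 * (1 - Real.cos (lin y t p + α)) ≤ e1 ∧
        (1 - e1) * omy y σ s ≤ ∑ p : Pr y, aa σ p * Real.log p * Real.cos (lin y t p + α)}) ∧
    volume.real {t : ℝ | t ∈ Icc T (2 * T) ∧ muy y σ s + η / 2 ≤ Sy y σ (lin y t)} ≤
      4 * T * Real.exp (-(Ly y σ s) - s * (η / 2)) ∧
    volume.real {t : ℝ | t ∈ Icc T (2 * T) ∧
      (1 + η / 2) * omy y σ s ≤ ‖Vy y σ (lin y t)‖} ≤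
      T * Real.exp (-(Ly y σ s) - cu * s) := by
  have hs0 : 0 ≤ s := by linarith only [hs1]
  have hσ0 : 1 / 2 ≤ σ := by linarith only [hσ.1, hε.1]
  have hσ' : σ ∈ Icc (1 / 2 : ℝ) 1 := ⟨hσ0, hσ.2⟩
  have hTpos : 0 < T := by
    rw [← hTU]
    exact Real.exp_pos _
  have hz0 : 0 < z := by linarith only [hz2]
  have hlogz0 : 0 < Real.log z := Real.log_pos (by linarith only [hz2])
  have hse : 0 ≤ s * e1 := mul_nonneg hs0 he0.le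
  have hGG := hG y σ z hσ' hzg hzy
  have hSM := hS y σ z hσ' hzs hzy
  obtain ⟨hE1, hE2, hE3⟩ := hE y σ z hσ hz2
  rw [hzσ] at hGG hSM hE2 hE3
  obtain ⟨hX1, hX2, hX3⟩ := SRT.size cg V l z hcg (by linarith only [hV]) hl1 hlogz0 hlz
    (by linarith only [hGG, hse, hsL, hLV])
  obtain ⟨X, hX⟩ : ∃ X : ℝ, X = V / cg * l ^ 3 := ⟨_, rfl⟩
  rw [← hX] at hp5 hX1 hX2 hX3
  have hX0 : 0 ≤ X := by linarith only [hX1, hz0]
  have hcx : 0 ≤ Ce * X := mul_nonneg hCe0.le hX0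
  have hE1' : ∑ p : Pr y, ell (3 * (z ^ σ * aa σ p)) ≤ Ce * X :=
    hE1.trans (by
      calc Ce * z * Real.log z = Ce * (z * Real.log z) := by ring
        _ ≤ Ce * X := mul_le_mul_of_nonneg_left hX2 hCe0.le)
  have hE2' : s * muy y σ s ≤ Ce * X :=
    hE2.trans (by
      calc Ce * z * Real.log z = Ce * (z * Real.log z) := by ring
        _ ≤ Ce * X := mul_le_mul_of_nonneg_left hX2 hCe0.le)
  have hE3' : s * omy y σ s ≤ Ce * X :=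
    hE3.trans (by
      calc Ce * z * Real.log z ^ 2 = Ce * (z * Real.log z ^ 2) := by ring
        _ ≤ Ce * X := mul_le_mul_of_nonneg_left hX3 hCe0.le)
  have hlog400 : 0 ≤ Real.log (400 / e1 ^ 2) := by
    apply Real.log_nonneg
    rw [le_div_iff₀ (by positivity)]
    have : e1 ^ 2 ≤ 1 := pow_le_one₀ he0.le he4
    linarith only [this]
  have hk8 : 8 * (Ce * X) + 8 * X + Real.log (400 / e1 ^ 2) + 2 * a + 1 ≤ k := by
    have : 8 * (Ce + 1) * X = 8 * (Ce * X) + 8 * X := by ring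
    linarith only [this, hp5]
  have hk1 : 1 ≤ k := by
    have g1 : (1 : ℝ) ≤ k := by linarith only [hk8, hcx, hX0, hlog400, ha0]
    exact_mod_cast g1
  have hbig := SRT.big y k s e1 U a hy1 hs0 hsy he0 hya hp6
  rw [hTU] at hbig
  have hbig2 := SRT.big2 y k s e1 T hy1 hs0 he0 he4 hbig
  have hcond := SRT.condL y k e1 (∑ p : Pr y, ell (3 * (z ^ σ * aa σ p))) hy1 he0
    (by linarith only [hk8, hE1', hcx, hX0, hya])
  refine ⟨?_, ?_, ?_, ?_⟩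
  · have g1 : M / cs ≤ Real.log z := by
      rw [Real.le_log_iff_exp_le hz0]
      exact hzM
    have g2 : 0 ≤ z ^ (1 - σ) := Real.rpow_nonneg hz0.le _
    have g3 : cs * (M / cs) ≤ cs * (Real.log z + z ^ (1 - σ)) :=
      mul_le_mul_of_nonneg_left (by linarith only [g1, g2]) hcs.le
    rw [mul_div_cancel₀ _ hcs.ne'] at g3
    exact g3.trans hSM
  · intro α
    have h := hL y k σ z α T hσ hzl hzy hTpos hcond (by rw [hzσ]; exact hbig)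
    rw [hzσ] at h
    exact h
  · refine h3 y k σ s (η / 2) T (by linarith only [hσ0]) hs0 (by linarith only [hη0])
      (by exact_mod_cast hy1) hk1 hTpos ?_ hbig2
    have g0 : s * (η / 2) ≤ s * 1 := mul_le_mul_of_nonneg_left (by linarith only [hη1]) hs0
    rw [mul_add]
    linarith only [g0, hsz, hX1, hE2', hk8, hlog400, ha0, hcx, hX0]
  · have h := hU y k σ z T hσ hzu hzy hk1 hTpos
      (by
        rw [hzσ]
        linarith only [hE3', hk8, hlog400, ha0, hcx, hX0])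
      (by rw [hzσ]; exact hbig2)
    rw [hzσ] at h
    exact h

theorem rt_of (h1 : ST_LT) (h2 : ST_VT) (h3 : ST_ST) (h7 : ST_LL) (hLG : ST_LG) (hEU : ST_EU)
    (h5 : ST_DT1) (h6 : ST_DT2) (h8 : ST_SM5) : ST_RT := by
  intro ε hε η hη κ hκ
  obtain ⟨hη0, hη1⟩ := hη
  obtain ⟨cu, zu, hcu, hU⟩ := h2 ε hε (η / 2)
    ⟨by linarith only [hη0], by linarith only [hη1]⟩
  obtain ⟨e1, he1⟩ : ∃ e1 : ℝ, e1 = min (cu / 2) (η / 8) := ⟨_, rfl⟩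
  have he0 : 0 < e1 := by
    rw [he1]
    exact lt_min (by linarith only [hcu]) (by linarith only [hη0])
  have he2 : e1 ≤ cu / 2 := by
    rw [he1]
    exact min_le_left _ _
  have he3 : e1 ≤ η / 8 := by
    rw [he1]
    exact min_le_right _ _
  clear he1
  have he4 : e1 ≤ 1 := by linarith only [he3, hη1]
  obtain ⟨zl, hL⟩ := h1 ε hε e1 ⟨he0, by linarith only [he3, hη1]⟩
  obtain ⟨Cd0, hD0⟩ := h6 ε hε.1
  obtain ⟨Cl0, hLL0⟩ := h7 ε hε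
  obtain ⟨Cl, hCl⟩ : ∃ Cl : ℝ, Cl = max Cl0 0 := ⟨_, rfl⟩
  have hCl0 : 0 ≤ Cl := by
    rw [hCl]
    exact le_max_right _ _
  have hCl1 : Cl0 ≤ Cl := by
    rw [hCl]
    exact le_max_left _ _
  clear hCl
  obtain ⟨cs, zs, hzs3, hcs, hS⟩ := h8
  obtain ⟨cg, zg, hzg3, hcg, hG⟩ := hLG
  obtain ⟨Ce, hCe0, hE⟩ := hEU ε hε
  obtain ⟨M, hM⟩ : ∃ M : ℝ, M = max (1 / η) (2 * Cd0 / η) := ⟨_, rfl⟩
  have hM1 : 1 / η ≤ M := by
    rw [hM]
    exact le_max_left _ _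
  have hM2 : 2 * Cd0 / η ≤ M := by
    rw [hM]
    exact le_max_right _ _
  clear hM
  obtain ⟨S, hS1, hS2, hSu, hSl, hSs, hSg, hS16, hS8, hSM⟩ : ∃ S : ℝ, 1 ≤ S ∧ 2 ≤ S ∧ zu ≤ S ∧
      zl ≤ S ∧ zs ≤ S ∧ zg ≤ S ∧ 16 / η ≤ S ∧ 8 / cu ≤ S ∧ Real.exp (M / cs) ≤ S := by
    have q1 := abs_nonneg zu
    have q2 := abs_nonneg zl
    have q3 := abs_nonneg zs
    have q3' := abs_nonneg zg
    have q4 : 0 < 16 / η := by positivity
    have q5 : 0 < 8 / cu := by positivity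
    have q6 := Real.exp_pos (M / cs)
    have q7 := le_abs_self zu
    have q8 := le_abs_self zl
    have q9 := le_abs_self zs
    have q10 := le_abs_self zg
    refine ⟨2 + |zu| + |zl| + |zs| + |zg| + 16 / η + 8 / cu + Real.exp (M / cs), ?_, ?_, ?_, ?_,
      ?_, ?_, ?_, ?_, ?_⟩ <;>
    linarith only [q1, q2, q3, q3', q4, q5, q6, q7, q8, q9, q10]
  have hX0 : 0 ≤ Cl * S ^ 2 := mul_nonneg hCl0 (sq_nonneg _)
  refine ⟨4 * Real.exp (Cl * S ^ 2 + S + 1), ?_, fun A hA => ?_⟩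
  · have := Real.add_one_le_exp (Cl * S ^ 2 + S + 1)
    linarith only [this, hX0, hS1]
  obtain ⟨U₀, hU₀4, hpar⟩ := SRT.par A e1 Ce cg κ hA he0 he4 hCe0 hcg hκ.1 hκ.2
  refine ⟨Real.exp U₀, ?_, fun T hT N hN hNT σ hσ => ?_⟩
  · have := Real.add_one_le_exp U₀
    linarith only [this, hU₀4]
  have hTpos : 0 < T := lt_of_lt_of_le (Real.exp_pos _) hT
  obtain ⟨U, hUd⟩ : ∃ U : ℝ, U = Real.log T := ⟨_, rfl⟩
  have hUU : U₀ ≤ U := by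
    rw [hUd, Real.le_log_iff_exp_le hTpos]
    exact hT
  have hTU : Real.exp U = T := by rw [hUd, Real.exp_log hTpos]
  obtain ⟨hp1, hp2, hp3, hp4, hp5, hp6⟩ := hpar U hUU
  clear hpar
  have hU1 : 1 ≤ U := by linarith only [hUU, hU₀4]
  have hU0 : 0 < U := by linarith only [hU1]
  have hzA : zA A T = ⌊U ^ A⌋₊ := by rw [zA, hUd]
  rw [hzA]
  obtain ⟨y, hyd⟩ : ∃ y : ℕ, y = ⌊U ^ A⌋₊ := ⟨_, rfl⟩
  rw [← hyd] at hp2 hp3 hp4 ⊢
  obtain ⟨k, hkd⟩ : ∃ k : ℕ, k = ⌊U ^ (1 - κ / 2)⌋₊ := ⟨_, rfl⟩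
  rw [← hkd] at hp5 hp6
  obtain ⟨V, hV⟩ : ∃ V : ℝ, V = U ^ (1 - κ) := ⟨_, rfl⟩
  rw [← hV] at hp2 hp3 hp5
  rw [← hUd, ← hV] at hNT
  have hV1 : 1 ≤ V := by
    rw [hV]
    exact Real.one_le_rpow hU1 (by linarith only [hκ.2])
  have hVU : V ≤ U := by
    rw [hV]
    calc U ^ (1 - κ) ≤ U ^ (1 : ℝ) :=
          Real.rpow_le_rpow_of_exponent_le hU1 (by linarith only [hκ.1])
      _ = U := Real.rpow_one U
  have hylog : Real.log y ≤ A * Real.log U := by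
    have g1 : (y : ℝ) ≤ U ^ A := by
      rw [hyd]
      exact Nat.floor_le (Real.rpow_nonneg hU0.le _)
    have g2 := Real.log_le_log (by linarith only [hp4]) g1
    rwa [Real.log_rpow hU0] at g2
  have hNpos : 0 < N := lt_of_lt_of_le (by positivity) hN
  obtain ⟨L, hLd⟩ : ∃ L : ℝ, L = Real.log (N / 4) := ⟨_, rfl⟩
  have hLbig : Cl * S ^ 2 + S + 1 ≤ L := by
    rw [hLd, Real.le_log_iff_exp_le (by positivity)]
    linarith only [hN]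
  have hexpL : Real.exp (-L) = 4 / N := by
    rw [Real.exp_neg, hLd, Real.exp_log (by positivity), inv_div]
  have hLV : L ≤ V := by
    rw [hLd]
    have g1 : N / 4 ≤ Real.exp V := by linarith only [hNT, hNpos]
    have g2 := Real.log_le_log (by positivity) g1
    rwa [Real.log_exp] at g2
  have hσ0 : 1 / 2 ≤ σ := by linarith only [hσ.1, hε.1]
  obtain ⟨hc, hl0, hl⟩ := hLL0 y σ hσ
  obtain ⟨s, hsS, hsle, hsL⟩ := SRT.level (fun s => Ly y σ s) e1 L Cl S he0 he4 hc hl0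
    (fun s hs => ⟨(hl s hs).1, (hl s hs).2.1.trans
      (mul_le_mul_of_nonneg_right hCl1 (sq_nonneg _))⟩) hCl0 hS1 hLbig
  have hs1 : 1 ≤ s := hS1.trans hsS
  have hs0 : 0 ≤ s := by linarith only [hs1]
  obtain ⟨z, hz⟩ : ∃ z : ℝ, z = s ^ σ⁻¹ := ⟨_, rfl⟩
  obtain ⟨hzσ, hz1, hz2⟩ := SRT.zz s σ hs1 hσ0 hσ.2
  rw [← hz] at hzσ hz1 hz2
  have hsV : s ≤ V / e1 := hsle.trans (div_le_div_of_nonneg_right hLV he0.le)
  have hzV : z ≤ (V / e1) ^ 2 := hz2.trans (pow_le_pow_left₀ hs0 hsV 2)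
  have hzy : z ≤ (y : ℝ) := hzV.trans hp2
  have hsy : s ≤ (y : ℝ) := hsV.trans hp3
  have hz0 : 0 < z := by linarith only [hs1, hz1]
  have hlogz : Real.log z ≤ 2 * Real.log (U / e1) := by
    have g1 := Real.log_le_log hz0 hzV
    rw [Real.log_pow] at g1
    have g2 : Real.log (V / e1) ≤ Real.log (U / e1) :=
      Real.log_le_log (by positivity) (div_le_div_of_nonneg_right hVU he0.le)
    push_cast at g1
    linarith only [g1, g2]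
  obtain ⟨hBM, hLO, hUS, hUV⟩ := SRT.bounds ε η e1 cu zu zl zs zg cs cg Ce M hη0 hη1 he0 he4
    hε hcs hcg hCe0 h3 hU hL hS hG hE y k σ s z T U V (2 * Real.log (U / e1)) (A * Real.log U) L
    hσ hzσ hs1 hz1 hzy hsy ((hS2.trans hsS).trans hz1) ((hSu.trans hsS).trans hz1)
    ((hSl.trans hsS).trans hz1) ((hSs.trans hsS).trans hz1) ((hSg.trans hsS).trans hz1)
    ((hSM.trans hsS).trans hz1) hV1 hp1 hlogz hp4 hylog
    (mul_nonneg (by linarith only [hA]) (Real.log_nonneg hU1)) hLV hsL hTU hp5 hp6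
  have hBd : Cd0 ≤ η / 2 * omy y σ s := by
    have g1 : 2 * Cd0 / η ≤ omy y σ s := hM2.trans hBM
    rw [div_le_iff₀ hη0] at g1
    linarith only [g1]
  exact SRT.four h5 η e1 cu Cd0 L N T s (muy y σ s) (omy y σ s) y σ hη0 hη1 hcu he0 he2 he3 hσ0
    (fun φ => hD0 y σ φ hσ.1) hs0 (hS16.trans hsS) (hS8.trans hsS) hTpos hNpos hexpL hsL
    (hl s hs0).2.2 (hM1.trans hBM) hBd hLO hUS hUV

end Pool.Agent.Helper57.QZ
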