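import Pool.Agent.Helper57.QZ.Stmts2

/-! Row RT of the second sheet QZ (MP_818aa8): the level sets of the short Euler product along the
line, `N` growing with `T` (helper62, after helper78's row RM). -/

set_option autoImplicit false

namespace Pool.Agent.Helper57.QZ

open MeasureTheory Set Filter Topology

theorem SRT.fin (T : ℝ) (P : ℝ → Prop) : volume {t : ℝ | t ∈ Icc T (2 * T) ∧ P t} ≠ ⊤ := by
  refine ne_of_lt (lt_of_le_of_lt (measure_mono (fun t ht => ht.1)) ?_) (b := (⊤ : ENNReal))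
  exact measure_Icc_lt_top

theorem SRT.mono (T : ℝ) {P Q : ℝ → Prop} (h : ∀ t ∈ Icc T (2 * T), P t → Q t) :
    volume.real {t : ℝ | t ∈ Icc T (2 * T) ∧ P t} ≤
      volume.real {t : ℝ | t ∈ Icc T (2 * T) ∧ Q t} :=
  measureReal_mono (fun t ht => ⟨ht.1, h t ht.1 ht.2⟩) (SRT.fin T Q)

theorem SRT.re_Vy (y : ℕ) (σ α : ℝ) (φ : Pr y → ℝ) :
    (Complex.exp (-((α : ℂ) * Complex.I)) * Vy y σ φ).re =
      ∑ p : Pr y, aa σ p * Real.log p * Real.cos (φ p + α) := by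
  unfold Vy
  rw [Finset.mul_sum, Complex.re_sum]
  refine Finset.sum_congr rfl fun p _ => ?_
  have h1 : Complex.exp (-((α : ℂ) * Complex.I)) *
      (((aa σ p * Real.log p : ℝ) : ℂ) * Complex.exp (-((φ p : ℂ) * Complex.I))) =
      ((aa σ p * Real.log p : ℝ) : ℂ) * Complex.exp (((-(φ p + α) : ℝ) : ℂ) * Complex.I) := by
    have : (((-(φ p + α) : ℝ) : ℂ) * Complex.I) =
        -((α : ℂ) * Complex.I) + -((φ p : ℂ) * Complex.I) := by
      push_cast
      ring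
    rw [this, Complex.exp_add]
    ring
  rw [h1, Complex.re_ofReal_mul, Complex.exp_ofReal_mul_I_re, Real.cos_neg]

/-- the parameters -/
theorem SRT.par (A e1 C c κ : ℝ) (hA : 3 ≤ A) (he : 0 < e1) (he1 : e1 ≤ 1) (hC : 0 < C)
    (hc : 0 < c) (hκ0 : 0 < κ) (hκ1 : κ < 1) : ∃ U₀ : ℝ, 4 ≤ U₀ ∧ ∀ U : ℝ, U₀ ≤ U →
    1 ≤ 2 * Real.log (U / e1) ∧
    (U ^ (1 - κ) / e1) ^ 2 ≤ (⌊U ^ A⌋₊ : ℝ) ∧ U ^ (1 - κ) / e1 ≤ (⌊U ^ A⌋₊ : ℝ) ∧
    (1 : ℝ) ≤ (⌊U ^ A⌋₊ : ℝ) ∧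
    8 * (C + 1) * (U ^ (1 - κ) / c * (2 * Real.log (U / e1)) ^ 3) + Real.log (400 / e1 ^ 2) +
      2 * (A * Real.log U) + 1 ≤ (⌊U ^ (1 - κ / 2)⌋₊ : ℝ) ∧
    Real.log (1000 / e1 ^ 2) +
      2 * (⌊U ^ (1 - κ / 2)⌋₊ : ℝ) * (Real.log 2 + 2 * (A * Real.log U)) +
      (2 * (⌊U ^ (1 - κ / 2)⌋₊ : ℝ) + 4) * (A * Real.log U) ≤ U := by
  obtain ⟨Ka, hKa⟩ : ∃ K : ℝ, K = 8 * (C + 1) / c * (48 / κ) ^ 3 := ⟨_, rfl⟩
  obtain ⟨Kb, hKb⟩ : ∃ K : ℝ, K = |Real.log (400 / e1 ^ 2)| + 24 * A / κ + 2 := ⟨_, rfl⟩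
  obtain ⟨Kc, hKc⟩ : ∃ K : ℝ, K = |Real.log (1000 / e1 ^ 2)| + 2 + 72 * A / κ + 48 * A / κ :=
    ⟨_, rfl⟩
  have hKa0 : 0 < Ka := by rw [hKa]; positivity
  have hA0 : 0 < A := by linarith
  have hKb0 : 0 < Kb := by
    rw [hKb]
    have := abs_nonneg (Real.log (400 / e1 ^ 2))
    have : 0 < 24 * A / κ := by positivity
    linarith
  have hKc0 : 0 < Kc := by
    rw [hKc]
    have := abs_nonneg (Real.log (1000 / e1 ^ 2))
    have : 0 < 72 * A / κ := by positivity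
    have : 0 < 48 * A / κ := by positivity
    linarith
  obtain ⟨W, hW⟩ : ∃ W : ℝ, W = Ka + Kb + Kc + 1 := ⟨_, rfl⟩
  have hW1 : 1 ≤ W := by linarith only [hW, hKa0, hKb0, hKc0]
  have hW0 : 0 ≤ W := by linarith only [hW1]
  refine ⟨W ^ (12 / κ) + 1 / e1 ^ 2 + 4, ?_, fun U hU => ?_⟩
  · have h1 : 0 ≤ W ^ (12 / κ) := Real.rpow_nonneg hW0 _
    have h2 : 0 < 1 / e1 ^ 2 := by positivity
    linarith only [h1, h2]
  have hWp : 0 ≤ W ^ (12 / κ) := Real.rpow_nonneg hW0 _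
  have hee : 0 < 1 / e1 ^ 2 := by positivity
  have hU4 : 4 ≤ U := by linarith only [hU, hWp, hee]
  have hU0 : 0 < U := by linarith only [hU4]
  have hU1 : 1 ≤ U := by linarith only [hU4]
  obtain ⟨w, hw⟩ : ∃ w : ℝ, w = U ^ (κ / 12) := ⟨_, rfl⟩
  have hwW : W ≤ w := by
    have h1 : W ^ (12 / κ) ≤ U := by linarith only [hU, hee]
    have h2 := Real.rpow_le_rpow hWp h1 (show 0 ≤ κ / 12 by positivity)
    rw [← Real.rpow_mul hW0] at h2
    have h3 : 12 / κ * (κ / 12) = 1 := by field_simp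
    rw [h3, Real.rpow_one, ← hw] at h2
    exact h2
  have hw1 : 1 ≤ w := hW1.trans hwW
  have hlogU : Real.log U ≤ 12 / κ * w := by
    have h1 := Real.log_le_rpow_div hU0.le (show 0 < κ / 12 by positivity)
    rw [← hw] at h1
    calc Real.log U ≤ w / (κ / 12) := h1
      _ = 12 / κ * w := by field_simp
  have hlogU0 : 0 ≤ Real.log U := Real.log_nonneg hU1
  have hie : 1 ≤ 1 / e1 := by
    rw [le_div_iff₀ he]
    linarith only [he1]
  have hieU : 1 / e1 ≤ U := by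
    have h1 : 1 / e1 ≤ 1 / e1 ^ 2 := by
      have : 1 / e1 ^ 2 = (1 / e1) * (1 / e1) := by field_simp
      rw [this]
      exact le_mul_of_one_le_left (by linarith only [hie]) hie
    linarith only [h1, hU, hWp]
  have hUe : U / e1 = U * (1 / e1) := by ring
  have hUe1 : U ≤ U / e1 := by
    rw [hUe]
    exact le_mul_of_one_le_right hU0.le hie
  have hl1 : Real.log (U / e1) ≤ 2 * Real.log U := by
    have h1 : U / e1 ≤ U ^ 2 := by
      rw [hUe, pow_two]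
      exact mul_le_mul_of_nonneg_left hieU hU0.le
    have h2 := Real.log_le_log (by positivity) h1
    rw [Real.log_pow] at h2
    exact_mod_cast h2
  have hl0 : Real.log 4 ≤ Real.log (U / e1) :=
    Real.log_le_log (by norm_num) (by linarith only [hU4, hUe1])
  have hlog4 : 1 ≤ Real.log 4 := by
    rw [Real.le_log_iff_exp_le (by norm_num)]
    have := Real.exp_one_lt_d9
    linarith
  obtain ⟨l, hl⟩ : ∃ l : ℝ, l = 2 * Real.log (U / e1) := ⟨_, rfl⟩
  have hlw : l ≤ 48 / κ * w := by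
    rw [hl]
    calc 2 * Real.log (U / e1) ≤ 4 * Real.log U := by linarith only [hl1]
      _ ≤ 4 * (12 / κ * w) := by linarith only [hlogU]
      _ = 48 / κ * w := by ring
  have hl2 : 1 ≤ l := by rw [hl]; linarith only [hl0, hlog4]
  obtain ⟨V, hV⟩ : ∃ V : ℝ, V = U ^ (1 - κ) := ⟨_, rfl⟩
  have hV1 : 1 ≤ V := by
    rw [hV]
    exact Real.one_le_rpow hU1 (by linarith only [hκ1])
  have hVU : V ≤ U := by
    rw [hV]
    calc U ^ (1 - κ) ≤ U ^ (1 : ℝ) := Real.rpow_le_rpow_of_exponent_le hU1 (by linarith only [hκ0])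
      _ = U := Real.rpow_one U
  have hw6 : w ^ 6 = U ^ (κ / 2) := by
    rw [hw, ← Real.rpow_natCast, ← Real.rpow_mul hU0.le]
    congr 1
    push_cast
    ring
  have hk1 : U ^ (1 - κ / 2) = V * w ^ 6 := by
    rw [hw6, hV, ← Real.rpow_add hU0]
    congr 1
    ring
  have hk2 : U = U ^ (1 - κ / 2) * w ^ 6 := by
    rw [hw6, ← Real.rpow_add hU0]
    have : 1 - κ / 2 + κ / 2 = 1 := by ring
    rw [this, Real.rpow_one]
  obtain ⟨k, hk⟩ : ∃ k : ℕ, k = ⌊U ^ (1 - κ / 2)⌋₊ := ⟨_, rfl⟩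
  have hkpos : 0 ≤ U ^ (1 - κ / 2) := Real.rpow_nonneg hU0.le _
  have hkle : (k : ℝ) ≤ U ^ (1 - κ / 2) := by
    rw [hk]
    exact Nat.floor_le hkpos
  have hkge : U ^ (1 - κ / 2) - 1 ≤ (k : ℝ) := by
    rw [hk]
    exact (Nat.sub_one_lt_floor _).le
  have hY : U ^ 3 - 1 ≤ (⌊U ^ A⌋₊ : ℝ) := by
    have h1 : U ^ 3 ≤ U ^ A := by
      calc U ^ 3 = U ^ (3 : ℝ) := by norm_num
        _ ≤ U ^ A := Real.rpow_le_rpow_of_exponent_le hU1 hA
    have h2 := (Nat.sub_one_lt_floor (U ^ A)).le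
    linarith only [h1, h2]
  have hVe1 : 1 ≤ V / e1 := by
    rw [le_div_iff₀ he]
    linarith only [he1, hV1]
  have hc1 : (V / e1) ^ 2 ≤ (⌊U ^ A⌋₊ : ℝ) := by
    have h1 : (V / e1) ^ 2 ≤ (U / e1) ^ 2 := by
      apply pow_le_pow_left₀ (by linarith only [hVe1])
      exact div_le_div_of_nonneg_right hVU he.le
    have h2 : (U / e1) ^ 2 = U ^ 2 * (1 / e1 ^ 2) := by field_simp
    have h3 : U ^ 2 * (1 / e1 ^ 2) + U ^ 2 ≤ U ^ 3 := by
      have h5 : 1 / e1 ^ 2 + 1 ≤ U := by linarith only [hU, hWp]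
      calc U ^ 2 * (1 / e1 ^ 2) + U ^ 2 = U ^ 2 * (1 / e1 ^ 2 + 1) := by ring
        _ ≤ U ^ 2 * U := mul_le_mul_of_nonneg_left h5 (sq_nonneg U)
        _ = U ^ 3 := by ring
    have h4 : 1 ≤ U ^ 2 := one_le_pow₀ hU1
    linarith only [h1, h2, h3, h4, hY]
  have hc2 : V / e1 ≤ (V / e1) ^ 2 := le_self_pow₀ hVe1 two_ne_zero
  have hla : Real.log (400 / e1 ^ 2) ≤ |Real.log (400 / e1 ^ 2)| := le_abs_self _
  have hlb : Real.log (1000 / e1 ^ 2) ≤ |Real.log (1000 / e1 ^ 2)| := le_abs_self _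
  have habs1 := abs_nonneg (Real.log (400 / e1 ^ 2))
  have habs2 := abs_nonneg (Real.log (1000 / e1 ^ 2))
  have hw2 : 1 ≤ w ^ 2 := one_le_pow₀ hw1
  have hw3 : 1 ≤ w ^ 3 := one_le_pow₀ hw1
  have hww3 : w ≤ w ^ 3 := le_self_pow₀ hw1 (by norm_num)
  have hww5 : w ≤ w ^ 5 := le_self_pow₀ hw1 (by norm_num)
  have hw0 : 0 ≤ w := by linarith only [hw1]
  rw [← hV, ← hl, ← hk]
  refine ⟨hl2, hc1, hc2.trans hc1, hVe1.trans (hc2.trans hc1), ?_, ?_⟩
  · -- the lower bound for `k`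
    have h1 : 8 * (C + 1) * (V / c * l ^ 3) ≤ Ka * (V * w ^ 3) := by
      have h2 : l ^ 3 ≤ (48 / κ * w) ^ 3 := pow_le_pow_left₀ (by linarith only [hl2]) hlw 3
      calc 8 * (C + 1) * (V / c * l ^ 3) = 8 * (C + 1) / c * V * l ^ 3 := by ring
        _ ≤ 8 * (C + 1) / c * V * (48 / κ * w) ^ 3 := by
            apply mul_le_mul_of_nonneg_left h2
            positivity
        _ = Ka * (V * w ^ 3) := by rw [hKa]; ring
    have hVw : w ^ 3 ≤ V * w ^ 3 := le_mul_of_one_le_left (by positivity) hV1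
    have h3 : Real.log (400 / e1 ^ 2) + 2 * (A * Real.log U) + 2 ≤ Kb * (V * w ^ 3) := by
      have h4 : 2 * (A * Real.log U) ≤ 24 * A / κ * w := by
        calc 2 * (A * Real.log U) ≤ 2 * (A * (12 / κ * w)) := by gcongr
          _ = 24 * A / κ * w := by ring
      have h5 : 24 * A / κ * w ≤ 24 * A / κ * (V * w ^ 3) := by
        apply mul_le_mul_of_nonneg_left (hww3.trans hVw)
        positivity
      have h6 : 1 ≤ V * w ^ 3 := hw3.trans hVw
      have h7 : |Real.log (400 / e1 ^ 2)| * 1 ≤ |Real.log (400 / e1 ^ 2)| * (V * w ^ 3) :=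
        mul_le_mul_of_nonneg_left h6 habs1
      have h10 : (|Real.log (400 / e1 ^ 2)| + 24 * A / κ + 2) * (V * w ^ 3) =
          |Real.log (400 / e1 ^ 2)| * (V * w ^ 3) + 24 * A / κ * (V * w ^ 3) +
            2 * (V * w ^ 3) := by ring
      rw [hKb, h10]
      linarith only [h4, h5, h6, h7, hla]
    have h8 : (Ka + Kb) * (V * w ^ 3) ≤ V * w ^ 6 := by
      have h9 : Ka + Kb ≤ w ^ 3 := by linarith only [hW, hwW, hww3, hKc0]
      calc (Ka + Kb) * (V * w ^ 3) ≤ w ^ 3 * (V * w ^ 3) := by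
            apply mul_le_mul_of_nonneg_right h9
            positivity
        _ = V * w ^ 6 := by ring
    rw [hk1] at hkge
    linarith only [h1, h3, h8, hkge]
  · obtain ⟨G, hG⟩ : ∃ G : ℝ, G = U ^ (1 - κ / 2) := ⟨_, rfl⟩
    rw [← hG] at hkle hk2
    have hG1 : 1 ≤ G := by
      rw [hG]
      exact Real.one_le_rpow hU1 (by linarith only [hκ1])
    have hk0 : (0 : ℝ) ≤ k := Nat.cast_nonneg k
    have hlog2 : Real.log 2 ≤ 1 := by
      have := Real.log_two_lt_d9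
      linarith
    have hAl : A * Real.log U ≤ 12 * A / κ * w := by
      calc A * Real.log U ≤ A * (12 / κ * w) := by gcongr
        _ = 12 * A / κ * w := by ring
    have hAl0 : 0 ≤ A * Real.log U := mul_nonneg hA0.le hlogU0
    obtain ⟨B, hB⟩ : ∃ B : ℝ, B = 12 * A / κ := ⟨_, rfl⟩
    have hB0 : 0 < B := by rw [hB]; positivity
    rw [← hB] at hAl
    have h1 : 2 * (k : ℝ) * (Real.log 2 + 2 * (A * Real.log U)) ≤ 2 * G * (1 + 2 * (B * w)) := by
      gcongr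
    have h2 : (2 * (k : ℝ) + 4) * (A * Real.log U) ≤ (2 * G + 4) * (B * w) := by
      gcongr
    have hG0 : 0 ≤ G := by linarith only [hG1]
    have hGG : G ≤ G * w := le_mul_of_one_le_right hG0 hw1
    have hwG : w ≤ G * w := le_mul_of_one_le_left hw0 hG1
    have hGw : 1 ≤ G * w := hG1.trans hGG
    have h3 : Real.log (1000 / e1 ^ 2) + 2 * G * (1 + 2 * (B * w)) + (2 * G + 4) * (B * w) ≤
        Kc * (G * w) := by
      have e1' : Kc = |Real.log (1000 / e1 ^ 2)| + 2 + 6 * B + 4 * B := by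
        rw [hKc, hB]
        ring
      have h7 : |Real.log (1000 / e1 ^ 2)| * 1 ≤ |Real.log (1000 / e1 ^ 2)| * (G * w) :=
        mul_le_mul_of_nonneg_left hGw habs2
      have h8 : B * w ≤ B * (G * w) := mul_le_mul_of_nonneg_left hwG hB0.le
      have h10 : (|Real.log (1000 / e1 ^ 2)| + 2 + 6 * B + 4 * B) * (G * w) =
          |Real.log (1000 / e1 ^ 2)| * (G * w) + 2 * (G * w) + 6 * (B * (G * w)) +
            4 * (B * (G * w)) := by ring
      have h11 : 2 * G * (1 + 2 * (B * w)) + (2 * G + 4) * (B * w) =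
          2 * G + 6 * (B * (G * w)) + 4 * (B * w) := by ring
      rw [e1', h10, add_assoc, h11]
      linarith only [h7, h8, hGG, hlb]
    have h4 : Kc * (G * w) ≤ G * w ^ 6 := by
      have h9 : Kc ≤ w ^ 5 := by linarith only [hW, hwW, hww5, hKa0, hKb0]
      calc Kc * (G * w) ≤ w ^ 5 * (G * w) := by
            apply mul_le_mul_of_nonneg_right h9
            positivity
        _ = G * w ^ 6 := by ring
    linarith only [h1, h2, h3, h4, hk2]

end Pool.Agent.Helper57.QZ
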