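import Pool.Agent.Helper62.Q2.RTA

/-! Row RT of the second sheet QZ (MP_818aa8), number lemmas (helper62). -/

set_option autoImplicit false

namespace Pool.Agent.Helper57.QZ

open MeasureTheory Set Filter Topology

theorem SRT.exp_five : Real.exp (-5) ≤ 1 / 128 := by
  rw [Real.exp_neg, ← one_div]
  refine one_div_le_one_div_of_le (by norm_num) ?_
  have h1 : (2.7 : ℝ) ≤ Real.exp 1 := by
    have := Real.exp_one_gt_d9
    linarith
  have h2 : Real.exp 5 = Real.exp 1 ^ 5 := by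
    rw [← Real.exp_nat_mul]
    norm_num
  rw [h2]
  calc (128 : ℝ) ≤ 2.7 ^ 5 := by norm_num
    _ ≤ Real.exp 1 ^ 5 := pow_le_pow_left₀ (by norm_num) h1 5

theorem SRT.exp_four : Real.exp (-4) ≤ 1 / 32 := by
  rw [Real.exp_neg, ← one_div]
  refine one_div_le_one_div_of_le (by norm_num) ?_
  have h1 : (2.7 : ℝ) ≤ Real.exp 1 := by
    have := Real.exp_one_gt_d9
    linarith
  have h2 : Real.exp 4 = Real.exp 1 ^ 4 := by
    rw [← Real.exp_nat_mul]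
    norm_num
  rw [h2]
  calc (32 : ℝ) ≤ 2.7 ^ 4 := by norm_num
    _ ≤ Real.exp 1 ^ 4 := pow_le_pow_left₀ (by norm_num) h1 4

/-- the bound for the number of terms -/
theorem SRT.big (y k : ℕ) (s e1 U a : ℝ) (hy : (1 : ℝ) ≤ y) (hs : 0 ≤ s) (hsy : s ≤ y)
    (he : 0 < e1) (ha : Real.log y ≤ a)
    (h : Real.log (1000 / e1 ^ 2) + 2 * (k : ℝ) * (Real.log 2 + 2 * a) +
      (2 * (k : ℝ) + 4) * a ≤ U) :
    1000 * (1 + s * y) ^ (2 * k) * (y : ℝ) ^ (2 * k + 4) / e1 ^ 2 ≤ Real.exp U := by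
  have hy0 : (0 : ℝ) < y := by linarith
  have h1 : 1 + s * y ≤ 2 * (y : ℝ) ^ 2 := by nlinarith
  have h2 : 1000 * (1 + s * y) ^ (2 * k) * (y : ℝ) ^ (2 * k + 4) / e1 ^ 2 ≤
      1000 / e1 ^ 2 * (2 * (y : ℝ) ^ 2) ^ (2 * k) * (y : ℝ) ^ (2 * k + 4) := by
    have h3 : (1 + s * y) ^ (2 * k) ≤ (2 * (y : ℝ) ^ 2) ^ (2 * k) :=
      pow_le_pow_left₀ (by positivity) h1 _
    calc 1000 * (1 + s * y) ^ (2 * k) * (y : ℝ) ^ (2 * k + 4) / e1 ^ 2
        = 1000 / e1 ^ 2 * (1 + s * y) ^ (2 * k) * (y : ℝ) ^ (2 * k + 4) := by ring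
      _ ≤ 1000 / e1 ^ 2 * (2 * (y : ℝ) ^ 2) ^ (2 * k) * (y : ℝ) ^ (2 * k + 4) := by
          gcongr
  refine h2.trans ?_
  rw [← Real.log_le_iff_le_exp (by positivity), Real.log_mul (by positivity) (by positivity),
    Real.log_mul (by positivity) (by positivity), Real.log_pow, Real.log_pow,
    Real.log_mul (by norm_num) (by positivity), Real.log_pow]
  push_cast
  have hk0 : (0 : ℝ) ≤ k := Nat.cast_nonneg k
  have h4 : 2 * (k : ℝ) * (Real.log 2 + 2 * Real.log y) ≤ 2 * (k : ℝ) * (Real.log 2 + 2 * a) := by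
    gcongr
  have h5 : (2 * (k : ℝ) + 4) * Real.log y ≤ (2 * (k : ℝ) + 4) * a := by
    gcongr
  linarith

theorem SRT.big2 (y k : ℕ) (s e1 T : ℝ) (hy : (1 : ℝ) ≤ y) (hs : 0 ≤ s) (he : 0 < e1)
    (he4 : e1 ≤ 1)
    (h : 1000 * (1 + s * y) ^ (2 * k) * (y : ℝ) ^ (2 * k + 4) / e1 ^ 2 ≤ T) :
    2 * (1 + s * y) ^ (2 * k) * (y : ℝ) ^ (2 * k) ≤ T := by
  refine le_trans ?_ h
  have g1 : (y : ℝ) ^ (2 * k + 4) = (y : ℝ) ^ (2 * k) * (y : ℝ) ^ 4 := pow_add _ _ _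
  have g2 : 1 ≤ (y : ℝ) ^ 4 := one_le_pow₀ hy
  have g3 : 1 ≤ 1 / e1 ^ 2 := by
    rw [le_div_iff₀ (by positivity)]
    have : e1 ^ 2 ≤ 1 := pow_le_one₀ he.le he4
    linarith
  obtain ⟨F, hF⟩ : ∃ F : ℝ, F = (1 + s * y) ^ (2 * k) * (y : ℝ) ^ (2 * k) := ⟨_, rfl⟩
  have hF0 : 0 ≤ F := by rw [hF]; positivity
  have g4 : 1 ≤ (y : ℝ) ^ 4 * (1 / e1 ^ 2) := by
    calc (1 : ℝ) = 1 * 1 := by norm_num
      _ ≤ (y : ℝ) ^ 4 * (1 / e1 ^ 2) := mul_le_mul g2 g3 (by norm_num) (by positivity)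
  calc 2 * (1 + s * y) ^ (2 * k) * (y : ℝ) ^ (2 * k) = 2 * F := by rw [hF]; ring
    _ ≤ 1000 * F * 1 := by linarith
    _ ≤ 1000 * F * ((y : ℝ) ^ 4 * (1 / e1 ^ 2)) :=
        mul_le_mul_of_nonneg_left g4 (by positivity)
    _ = 1000 * (1 + s * y) ^ (2 * k) * (y : ℝ) ^ (2 * k + 4) / e1 ^ 2 := by
        rw [hF, g1]
        ring

theorem SRT.condL (y k : ℕ) (e1 E : ℝ) (hy : (1 : ℝ) ≤ y) (he : 0 < e1)
    (h : Real.log (400 / e1 ^ 2) + 2 * Real.log y + E ≤ k) :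
    400 * (y : ℝ) ^ 2 / e1 ^ 2 * Real.exp E ≤ 4 ^ k := by
  have hy0 : (0 : ℝ) < y := by linarith
  have g1 : 400 * (y : ℝ) ^ 2 / e1 ^ 2 = Real.exp (Real.log (400 / e1 ^ 2) + 2 * Real.log y) := by
    rw [Real.exp_add, Real.exp_log (by positivity)]
    have : Real.exp (2 * Real.log y) = (y : ℝ) ^ 2 := by
      rw [mul_comm, Real.exp_mul, Real.exp_log hy0]
      norm_num
    rw [this]
    ring
  rw [g1, ← Real.exp_add]
  calc Real.exp (Real.log (400 / e1 ^ 2) + 2 * Real.log y + E) ≤ Real.exp k := Real.exp_le_exp.2 h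
    _ = Real.exp 1 ^ k := by rw [← Real.exp_nat_mul, mul_one]
    _ ≤ 4 ^ k := by
        apply pow_le_pow_left₀ (Real.exp_pos _).le
        have := Real.exp_one_lt_d9
        linarith

theorem SRT.size (cg V l z : ℝ) (hcg : 0 < cg) (hV : 0 < V) (hl : 1 ≤ l)
    (hz0 : 0 < Real.log z) (hz : Real.log z ≤ l) (h : cg * z / Real.log z ≤ V) :
    z ≤ V / cg * l ^ 3 ∧ z * Real.log z ≤ V / cg * l ^ 3 ∧
      z * Real.log z ^ 2 ≤ V / cg * l ^ 3 := by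
  have hVc : 0 < V / cg := by positivity
  have hl0 : 0 ≤ l := by linarith
  have hzl : z ≤ V / cg * l := by
    rw [div_le_iff₀ hz0] at h
    have g2 : V * Real.log z ≤ V * l := mul_le_mul_of_nonneg_left hz hV.le
    have g3 : cg * z ≤ V * l := h.trans g2
    have g4 : z ≤ V * l / cg := by
      rw [le_div_iff₀ hcg]
      linarith
    calc z ≤ V * l / cg := g4
      _ = V / cg * l := by ring
  have p1 : l ≤ l ^ 2 := by nlinarith
  have p2 : l ^ 2 ≤ l ^ 3 := by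
    calc l ^ 2 = l ^ 2 * 1 := by ring
      _ ≤ l ^ 2 * l := mul_le_mul_of_nonneg_left hl (by positivity)
      _ = l ^ 3 := by ring
  refine ⟨?_, ?_, ?_⟩
  · exact hzl.trans (mul_le_mul_of_nonneg_left (p1.trans p2) hVc.le)
  · calc z * Real.log z ≤ V / cg * l * l := mul_le_mul hzl hz hz0.le (by positivity)
      _ = V / cg * l ^ 2 := by ring
      _ ≤ V / cg * l ^ 3 := mul_le_mul_of_nonneg_left p2 hVc.le
  · have g2 : Real.log z ^ 2 ≤ l ^ 2 := pow_le_pow_left₀ hz0.le hz 2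
    calc z * Real.log z ^ 2 ≤ V / cg * l * l ^ 2 := mul_le_mul hzl g2 (by positivity)
          (by positivity)
      _ = V / cg * l ^ 3 := by ring

/-- the choice of the level `s` -/
theorem SRT.level (F : ℝ → ℝ) (e1 L C S : ℝ) (he0 : 0 < e1) (he1 : e1 ≤ 1) (hc : Continuous F)
    (h0 : F 0 = 0) (hF : ∀ s, 0 ≤ s → 0 ≤ F s ∧ F s ≤ C * s ^ 2) (hC : 0 ≤ C) (hS : 1 ≤ S)
    (hL : C * S ^ 2 + S + 1 ≤ L) :
    ∃ s, S ≤ s ∧ s ≤ L / e1 ∧ F s + s * e1 = L := by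
  have hL0 : 0 < L := by
    have : 0 ≤ C * S ^ 2 := by positivity
    linarith
  have hLe : 0 ≤ L / e1 := by positivity
  have hcont : ContinuousOn (fun s : ℝ => F s + s * e1) (Icc 0 (L / e1)) :=
    (hc.add (continuous_id.mul continuous_const)).continuousOn
  have hI := intermediate_value_Icc hLe hcont
  have hmem : L ∈ Icc (F 0 + 0 * e1) (F (L / e1) + (L / e1) * e1) := by
    refine ⟨?_, ?_⟩
    · rw [h0]
      linarith
    · rw [div_mul_cancel₀ _ he0.ne']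
      linarith [(hF (L / e1) hLe).1]
  obtain ⟨s, hs, hsL⟩ := hI hmem
  refine ⟨s, ?_, hs.2, hsL⟩
  by_contra h
  push Not at h
  have g1 := (hF s hs.1).2
  have g3 : s ^ 2 ≤ S ^ 2 := pow_le_pow_left₀ hs.1 h.le 2
  have g2 : C * s ^ 2 ≤ C * S ^ 2 := mul_le_mul_of_nonneg_left g3 hC
  have g4 : s * e1 ≤ s * 1 := mul_le_mul_of_nonneg_left he1 hs.1
  simp only at hsL
  linarith

theorem SRT.zz (s σ : ℝ) (hs : 1 ≤ s) (hσ : 1 / 2 ≤ σ) (hσ1 : σ ≤ 1) :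
    (s ^ σ⁻¹) ^ σ = s ∧ s ≤ s ^ σ⁻¹ ∧ s ^ σ⁻¹ ≤ s ^ 2 := by
  have hσ0 : 0 < σ := by linarith
  have hs0 : 0 ≤ s := by linarith
  refine ⟨Real.rpow_inv_rpow hs0 hσ0.ne', ?_, ?_⟩
  · have := Real.rpow_le_rpow_of_exponent_le hs ((one_le_inv₀ hσ0).2 hσ1)
    rwa [Real.rpow_one] at this
  · have hi : σ⁻¹ ≤ 2 := by
      rw [inv_le_comm₀ hσ0 (by norm_num)]
      linarith
    have := Real.rpow_le_rpow_of_exponent_le hs hi
    calc s ^ σ⁻¹ ≤ s ^ (2 : ℝ) := this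
      _ = s ^ 2 := by norm_num

end Pool.Agent.Helper57.QZ
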