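import Pool.Agent.Helper62.Q2.RTB

/-! Row RT of the second sheet QZ (MP_818aa8), the four level sets (helper62). -/

set_option autoImplicit false

namespace Pool.Agent.Helper57.QZ

open MeasureTheory Set Filter Topology

theorem SRT.wv (y : ℕ) (σ Cd : ℝ) (φ : Pr y → ℝ) (h : ‖Wy y σ φ + Vy y σ φ‖ ≤ Cd) :
    ‖Vy y σ φ‖ ≤ ‖Wy y σ φ‖ + Cd ∧ ‖Wy y σ φ‖ ≤ ‖Vy y σ φ‖ + Cd := by
  refine ⟨?_, ?_⟩
  · have : Vy y σ φ = (Wy y σ φ + Vy y σ φ) - Wy y σ φ := by ring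
    calc ‖Vy y σ φ‖ = ‖(Wy y σ φ + Vy y σ φ) - Wy y σ φ‖ := by rw [← this]
      _ ≤ ‖Wy y σ φ + Vy y σ φ‖ + ‖Wy y σ φ‖ := norm_sub_le _ _
      _ ≤ ‖Wy y σ φ‖ + Cd := by linarith
  · have : Wy y σ φ = (Wy y σ φ + Vy y σ φ) - Vy y σ φ := by ring
    calc ‖Wy y σ φ‖ = ‖(Wy y σ φ + Vy y σ φ) - Vy y σ φ‖ := by rw [← this]
      _ ≤ ‖Wy y σ φ + Vy y σ φ‖ + ‖Vy y σ φ‖ := norm_sub_le _ _
      _ ≤ ‖Vy y σ φ‖ + Cd := by linarith

/-- (1): both lower bounds at a good point -/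
theorem SRT.one (h5 : ST_DT1) (y : ℕ) (σ η e1 Cd B m : ℝ) (φ : Pr y → ℝ) (hσ0 : 1 / 2 ≤ σ)
    (he3 : e1 ≤ η / 8) (he0 : 0 < e1)
    (hD : ‖Wy y σ φ + Vy y σ φ‖ ≤ Cd) (hBd : Cd ≤ η / 2 * B) (heB : e1 * B ≤ η / 8 * B)
    (hηB : 0 ≤ η * B)
    (a1 : m - e1 ≤ Sa y σ 0 φ)
    (a2 : 16 * ∑ p : Pr y, aa σ p ^ 2 * (1 - Real.cos (φ p + 0)) ≤ e1)
    (a3 : (1 - e1) * B ≤ ∑ p : Pr y, aa σ p * Real.log p * Real.cos (φ p + 0)) :
    (1 - η) * Real.exp (m + Ky y σ) ≤ ‖Zy y σ φ‖ ∧ (1 - η) * B ≤ ‖Wy y σ φ‖ := by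
  obtain ⟨b1, b2, b3, b4⟩ := h5 y σ φ hσ0
  have a1' : m - e1 ≤ Sy y σ φ := by
    refine a1.trans (le_of_eq ?_)
    unfold Sa Sy
    simp only [add_zero]
  have a2' : 16 * ∑ p : Pr y, aa σ p ^ 2 * (1 - Real.cos (φ p)) ≤ e1 := by
    simpa only [add_zero] using a2
  refine ⟨?_, ?_⟩
  · have g1 : 0 < ‖Zy y σ φ‖ := norm_pos_iff.2 b1
    have g2 : Real.exp (m + Ky y σ - 2 * e1) ≤ ‖Zy y σ φ‖ := by
      rw [← Real.le_log_iff_exp_le g1]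
      linarith only [b3, a1', a2']
    refine le_trans ?_ g2
    have e9 : Real.exp (m + Ky y σ - 2 * e1) = Real.exp (-(2 * e1)) * Real.exp (m + Ky y σ) := by
      rw [← Real.exp_add]
      congr 1
      ring
    rw [e9]
    refine mul_le_mul_of_nonneg_right ?_ (Real.exp_pos _).le
    have := Real.add_one_le_exp (-(2 * e1))
    linarith only [this, he3, he0]
  · have g1 := (SRT.wv y σ Cd φ hD).1
    have g4 := SRT.re_Vy y σ 0 φ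
    simp only [Complex.ofReal_zero, zero_mul, neg_zero, Complex.exp_zero, one_mul] at g4
    have g3 : (Vy y σ φ).re ≤ ‖Vy y σ φ‖ := Complex.re_le_norm _
    rw [g4] at g3
    linarith only [g1, g3, a3, heB, hBd, hηB]

/-- (2): a large product has a large sum -/
theorem SRT.two (h5 : ST_DT1) (y : ℕ) (σ η m : ℝ) (φ : Pr y → ℝ) (hσ0 : 1 / 2 ≤ σ)
    (hη0 : 0 < η) (hη1 : η < 1 / 2)
    (hφ : (1 + η) * Real.exp (m + Ky y σ) ≤ ‖Zy y σ φ‖) : m + η / 2 ≤ Sy y σ φ := by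
  obtain ⟨b1, b2, b3, b4⟩ := h5 y σ φ hσ0
  have g1 := Real.log_le_log (by positivity) hφ
  rw [Real.log_mul (by positivity) (Real.exp_pos _).ne', Real.log_exp] at g1
  have g2 := Real.one_sub_inv_le_log_of_pos (show 0 < 1 + η by linarith)
  have g3 : η / 2 ≤ 1 - (1 + η)⁻¹ := by
    have : 1 - (1 + η)⁻¹ = η / (1 + η) := by
      have : (1 + η) ≠ 0 := by linarith
      field_simp
      ring
    rw [this, div_le_div_iff_of_pos_left hη0 (by norm_num) (by linarith)]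
    linarith
  linarith only [g1, g2, g3, b2]

/-- (4) at a good point -/
theorem SRT.thr (y : ℕ) (σ η e1 Cd B θ : ℝ) (φ : Pr y → ℝ)
    (hD : ‖Wy y σ φ + Vy y σ φ‖ ≤ Cd) (hBd : Cd ≤ η / 2 * B) (heB : e1 * B ≤ η / 8 * B)
    (hηB : 0 ≤ η * B)
    (a3 : (1 - e1) * B ≤ ∑ p : Pr y, aa σ p * Real.log p * Real.cos (φ p + (θ + Real.pi))) :
    (1 - η) * B ≤ (Complex.exp (-((θ : ℂ) * Complex.I)) * Wy y σ φ).re := by
  rw [← SRT.re_Vy] at a3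
  have e0 : Complex.exp (-(((θ + Real.pi : ℝ) : ℂ) * Complex.I)) =
      -Complex.exp (-((θ : ℂ) * Complex.I)) := by
    have : -(((θ + Real.pi : ℝ) : ℂ) * Complex.I) =
        -((θ : ℂ) * Complex.I) - Real.pi * Complex.I := by
      push_cast
      ring
    rw [this, Complex.exp_sub, Complex.exp_pi_mul_I]
    ring
  rw [e0] at a3
  obtain ⟨u, hu⟩ : ∃ u : ℂ, u = Complex.exp (-((θ : ℂ) * Complex.I)) := ⟨_, rfl⟩
  rw [← hu] at a3 ⊢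
  have hun : ‖u‖ = 1 := by
    rw [hu, ← neg_mul, ← Complex.ofReal_neg]
    exact Complex.norm_exp_ofReal_mul_I _
  have e2 : u * Wy y σ φ = u * (Wy y σ φ + Vy y σ φ) + -u * Vy y σ φ := by ring
  have e3 : -Cd ≤ (u * (Wy y σ φ + Vy y σ φ)).re := by
    have g1 : |(u * (Wy y σ φ + Vy y σ φ)).re| ≤ ‖u * (Wy y σ φ + Vy y σ φ)‖ :=
      Complex.abs_re_le_norm _
    rw [norm_mul, hun, one_mul] at g1
    have g3 := neg_abs_le (u * (Wy y σ φ + Vy y σ φ)).re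
    linarith only [g1, g3, hD]
  rw [e2, Complex.add_re]
  linarith only [e3, a3, heB, hBd, hηB]

theorem SRT.four (h5 : ST_DT1) (η e1 cu Cd L N T s m B : ℝ) (y : ℕ) (σ : ℝ)
    (hη0 : 0 < η) (hη1 : η < 1 / 2) (hcu : 0 < cu) (he0 : 0 < e1) (he2 : e1 ≤ cu / 2)
    (he3 : e1 ≤ η / 8) (hσ0 : 1 / 2 ≤ σ) (hD : ∀ φ : Pr y → ℝ, ‖Wy y σ φ + Vy y σ φ‖ ≤ Cd)
    (hs0 : 0 ≤ s) (hs16 : 16 / η ≤ s) (hs8 : 8 / cu ≤ s) (hTpos : 0 < T) (hNpos : 0 < N)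
    (hexpL : Real.exp (-L) = 4 / N) (hsL : Ly y σ s + s * e1 = L)
    (hm0 : 0 ≤ m) (hB1 : 1 / η ≤ B) (hBd : Cd ≤ η / 2 * B)
    (hLO : ∀ α : ℝ, (1 / 2) * Real.exp (-(Ly y σ s) - s * e1) * T ≤
      volume.real {t : ℝ | t ∈ Icc T (2 * T) ∧
        m - e1 ≤ Sa y σ α (lin y t) ∧
        16 * ∑ p : Pr y, aa σ p ^ 2 * (1 - Real.cos (lin y t p + α)) ≤ e1 ∧
        (1 - e1) * B ≤ ∑ p : Pr y, aa σ p * Real.log p * Real.cos (lin y t p + α)})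
    (hUS : volume.real {t : ℝ | t ∈ Icc T (2 * T) ∧ m + η / 2 ≤ Sy y σ (lin y t)} ≤
      4 * T * Real.exp (-(Ly y σ s) - s * (η / 2)))
    (hUV : volume.real {t : ℝ | t ∈ Icc T (2 * T) ∧ (1 + η / 2) * B ≤ ‖Vy y σ (lin y t)‖} ≤
      T * Real.exp (-(Ly y σ s) - cu * s)) :
    ∃ P Q : ℝ, 1 ≤ P ∧ 1 / η ≤ Q ∧
    2 / N * T ≤ volume.real {t : ℝ | t ∈ Icc T (2 * T) ∧
      (1 - η) * P ≤ ‖Zy y σ (lin y t)‖ ∧ (1 - η) * Q ≤ ‖Wy y σ (lin y t)‖} ∧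
    volume.real {t : ℝ | t ∈ Icc T (2 * T) ∧ (1 + η) * P ≤ ‖Zy y σ (lin y t)‖} ≤ T / (8 * N) ∧
    volume.real {t : ℝ | t ∈ Icc T (2 * T) ∧ (1 + η) * Q ≤ ‖Wy y σ (lin y t)‖} ≤ T / (8 * N) ∧
    ∀ θ : ℝ, 2 / N * T ≤ volume.real {t : ℝ | t ∈ Icc T (2 * T) ∧
      (1 - η) * Q ≤ (Complex.exp (-((θ : ℂ) * Complex.I)) * Wy y σ (lin y t)).re} := by
  have hB0 : 0 ≤ B := le_trans (by positivity) hB1
  have hηB : 0 ≤ η * B := mul_nonneg hη0.le hB0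
  have heB : e1 * B ≤ η / 8 * B := mul_le_mul_of_nonneg_right he3 hB0
  have hP : 2 / N * T = (1 / 2) * Real.exp (-(Ly y σ s) - s * e1) * T := by
    have : -(Ly y σ s) - s * e1 = -L := by linarith only [hsL]
    rw [this, hexpL]
    ring
  rw [hP]
  have hK : 0 ≤ Ky y σ := (h5 y σ (fun _ => 0) hσ0).2.2.2
  refine ⟨Real.exp (m + Ky y σ), B, Real.one_le_exp (by linarith only [hm0, hK]), hB1,
    ?_, ?_, ?_, ?_⟩
  · refine (hLO 0).trans (SRT.mono T ?_)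
    rintro t - ⟨a1, a2, a3⟩
    exact SRT.one h5 y σ η e1 Cd B m (lin y t) hσ0 he3 he0 (hD _) hBd heB hηB a1 a2 a3
  · have g0 : ∀ t ∈ Icc T (2 * T), (1 + η) * Real.exp (m + Ky y σ) ≤ ‖Zy y σ (lin y t)‖ →
        m + η / 2 ≤ Sy y σ (lin y t) :=
      fun t _ hφ => SRT.two h5 y σ η m (lin y t) hσ0 hη0 hη1 hφ
    refine (SRT.mono T g0).trans (hUS.trans ?_)
    have g4 : -(Ly y σ s) - s * (η / 2) = -L + -(s * (η / 2 - e1)) := by
      rw [← hsL]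
      ring
    rw [g4, Real.exp_add, hexpL]
    rw [div_le_iff₀ hη0] at hs16
    have g6 : s * (3 * η / 8) ≤ s * (η / 2 - e1) :=
      mul_le_mul_of_nonneg_left (by linarith only [he3]) hs0
    have g7 : Real.exp (-(s * (η / 2 - e1))) ≤ 1 / 128 :=
      (Real.exp_le_exp.2 (by linarith only [g6, hs16])).trans SRT.exp_five
    calc 4 * T * (4 / N * Real.exp (-(s * (η / 2 - e1)))) ≤ 4 * T * (4 / N * (1 / 128)) := by
          gcongr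
      _ = T / (8 * N) := by
          field_simp
          norm_num
  · have g0 : ∀ t ∈ Icc T (2 * T), (1 + η) * B ≤ ‖Wy y σ (lin y t)‖ →
        (1 + η / 2) * B ≤ ‖Vy y σ (lin y t)‖ := by
      intro t _ hφ
      have g1 := (SRT.wv y σ Cd (lin y t) (hD _)).2
      linarith only [g1, hφ, hBd]
    refine (SRT.mono T g0).trans (hUV.trans ?_)
    have g4 : -(Ly y σ s) - cu * s = -L + -((cu - e1) * s) := by
      rw [← hsL]
      ring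
    rw [g4, Real.exp_add, hexpL]
    rw [div_le_iff₀ hcu] at hs8
    have g6 : cu / 2 * s ≤ (cu - e1) * s :=
      mul_le_mul_of_nonneg_right (by linarith only [he2]) hs0
    have g7 : Real.exp (-((cu - e1) * s)) ≤ 1 / 32 :=
      (Real.exp_le_exp.2 (by linarith only [g6, hs8])).trans SRT.exp_four
    calc T * (4 / N * Real.exp (-((cu - e1) * s))) ≤ T * (4 / N * (1 / 32)) := by gcongr
      _ = T / (8 * N) := by
          field_simp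
          norm_num
  · intro θ
    refine (hLO (θ + Real.pi)).trans (SRT.mono T ?_)
    rintro t - ⟨a1, a2, a3⟩
    exact SRT.thr y σ η e1 Cd B θ (lin y t) (hD _) hBd heB hηB a3

end Pool.Agent.Helper57.QZ
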